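import Pool.Agent.H749.Col.Dens

set_option autoImplicit false

/-! Almost all integers that reach `1` under the Collatz map reach it in at most `8 log_2 n` steps; the set
of those that do is computable. -/

namespace Pool.Agent.H749.Col

open Filter Topology

/-- the integers which reach `1` -/
def Aset : Set ℕ := {n | 0 < n ∧ ∃ k : ℕ, col^[k] n = 1}

/-- the integers which reach `1` in at most `8 log_2 n` steps -/
def Bset : Set ℕ := {n | 0 < n ∧ ∃ k : ℕ, 2 ^ k ≤ n ^ 8 ∧ col^[k] n = 1}

theorem B_sub_A : Bset ⊆ Aset := by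
  rintro n ⟨h, k, -, hk⟩
  exact ⟨h, k, hk⟩

theorem B_comp : ComputablePred fun n => n ∈ Bset := by
  classical
  have hit : Primrec fun x : ℕ × ℕ => col^[x.2] x.1 :=
    Primrec.nat_iterate Primrec.snd Primrec.fst (col_primrec.comp Primrec.snd)
  have hd1 : Primrec fun x : ℕ × ℕ => decide (col^[x.2] x.1 = 1) :=
    (Primrec.eq.comp hit (Primrec.const 1)).decide
  have hd2 : Primrec fun x : ℕ × ℕ => decide (2 ^ x.2 ≤ x.1 ^ 8) :=
    (Primrec.nat_le.comp (pow_primrec.comp (Primrec.const 2) Primrec.snd)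
      (pow_primrec.comp Primrec.fst (Primrec.const 8))).decide
  have hh : Computable₂ fun n k : ℕ => (decide (2 ^ k ≤ n ^ 8) && decide (col^[k] n = 1)) :=
    (Primrec.and.comp hd2 hd1).to_comp
  have hcnt : Computable fun n : ℕ => cnt (fun k => (decide (2 ^ k ≤ n ^ 8) && decide (col^[k] n = 1))) (n ^ 8) :=
    cnt_computable hh (pow_primrec.comp Primrec.id (Primrec.const 8)).to_comp
  have hdec : Computable fun n : ℕ => (decide (n = 1) || decide (0 <
      cnt (fun k => (decide (2 ^ k ≤ n ^ 8) && decide (col^[k] n = 1))) (n ^ 8))) := by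
    have h1 : Computable fun n : ℕ => decide (n = 1) :=
      (Primrec.eq.comp Primrec.id (Primrec.const 1)).decide.to_comp
    have h2 : Computable fun n : ℕ => decide (0 <
        cnt (fun k => (decide (2 ^ k ≤ n ^ 8) && decide (col^[k] n = 1))) (n ^ 8)) :=
      (Primrec.nat_lt.decide).to_comp.comp (Computable.const 0) hcnt
    exact Primrec.or.to_comp.comp h1 h2
  rw [ComputablePred.computable_iff]
  refine ⟨_, hdec, ?_⟩
  funext n
  apply propext
  simp only [Bool.or_eq_true, decide_eq_true_eq]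
  constructor
  · rintro ⟨hn, k, hk1, hk2⟩
    rcases Nat.eq_zero_or_pos k with rfl | hk
    · left; simpa using hk2
    · right
      rw [cnt_eq, Finset.card_pos]
      refine ⟨k, Finset.mem_filter.2 ⟨Finset.mem_Icc.2 ⟨hk, ?_⟩, by simp [hk1, hk2]⟩⟩
      exact (Nat.lt_two_pow_self.le).trans hk1
  · rintro (rfl | h)
    · exact ⟨by norm_num, 0, by norm_num, rfl⟩
    · rw [cnt_eq, Finset.card_pos] at h
      obtain ⟨k, hk⟩ := h
      rw [Finset.mem_filter] at hk
      obtain ⟨hk1, hk2⟩ := hk
      simp only [Bool.and_eq_true, decide_eq_true_eq] at hk2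
      refine ⟨?_, k, hk2.1, hk2.2⟩
      rcases Nat.eq_zero_or_pos n with rfl | hn
      · have := hk2.1
        simp at this
      · exact hn

theorem consts : 3 / Real.log (4 / 3) < 8 / Real.log 2 := by
  have h1 : 0 < Real.log (4 / 3) := Real.log_pos (by norm_num)
  have h2 : 0 < Real.log 2 := Real.log_pos (by norm_num)
  rw [div_lt_div_iff₀ h1 h2]
  have e1 : 3 * Real.log 2 = Real.log (2 ^ 3) := by rw [Real.log_pow]; norm_num
  have e2 : 8 * Real.log (4 / 3) = Real.log ((4 / 3) ^ 8) := by rw [Real.log_pow]; norm_num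
  rw [e1, e2]
  exact Real.log_lt_log (by norm_num) (by norm_num)

/-- for large `n` the bound of the law of the total stopping time is below `8 log_2 n` -/
theorem bound_lt (x c : ℝ) : ∀ᶠ n : ℕ in atTop,
    3 / Real.log (4 / 3) * Real.log n + x * (c * Real.sqrt (2 * Real.log n / Real.log (4 / 3) ^ 3)) ≤
      8 / Real.log 2 * Real.log n := by
  have hd := consts
  set η := 8 / Real.log 2 - 3 / Real.log (4 / 3) with hη
  have hη0 : 0 < η := by linarith
  set b := Real.sqrt (2 / Real.log (4 / 3) ^ 3) with hb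
  have hlog : Tendsto (fun n : ℕ => Real.sqrt (Real.log (n : ℝ))) atTop atTop :=
    (Real.tendsto_sqrt_atTop.comp Real.tendsto_log_atTop).comp tendsto_natCast_atTop_atTop
  filter_upwards [hlog.eventually_ge_atTop (|x * c| * b / η), eventually_ge_atTop 1] with n hn hn1
  have hl : 0 ≤ Real.log (n : ℝ) := Real.log_natCast_nonneg n
  have h1 : Real.sqrt (2 * Real.log n / Real.log (4 / 3) ^ 3) = b * Real.sqrt (Real.log n) := by
    rw [hb, ← Real.sqrt_mul' _ hl]
    congr 1
    ring
  rw [h1]
  have hs : 0 ≤ Real.sqrt (Real.log (n : ℝ)) := Real.sqrt_nonneg _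
  have hsq : Real.sqrt (Real.log (n : ℝ)) * Real.sqrt (Real.log (n : ℝ)) = Real.log n := Real.mul_self_sqrt hl
  rw [div_le_iff₀ hη0] at hn
  have hb0 : 0 ≤ b := Real.sqrt_nonneg _
  have h2 : x * (c * (b * Real.sqrt (Real.log n))) ≤ |x * c| * b * Real.sqrt (Real.log n) := by
    have h3 : x * c ≤ |x * c| := le_abs_self _
    have h4 : 0 ≤ b * Real.sqrt (Real.log (n : ℝ)) := by positivity
    nlinarith
  have h5 : |x * c| * b * Real.sqrt (Real.log n) ≤ η * Real.log n := by
    calc |x * c| * b * Real.sqrt (Real.log n) ≤ (Real.sqrt (Real.log n) * η) * Real.sqrt (Real.log n) :=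
          mul_le_mul_of_nonneg_right hn hs
      _ = η * (Real.sqrt (Real.log n) * Real.sqrt (Real.log n)) := by ring
      _ = _ := by rw [hsq]
  have h6 : 8 / Real.log 2 * Real.log n = 3 / Real.log (4 / 3) * Real.log n + η * Real.log n := by
    rw [hη]; ring
  rw [h6]
  linarith

end Pool.Agent.H749.Col
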