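import Mathlib

set_option autoImplicit false

/-! Recursion theory for sets invariant under a computable map: stage functions of r.e. predicates,
counting, and the criterion computable iff the density is a computable real. -/

namespace Pool.Agent.H749.Col

open Nat.Partrec (Code)

/-- a nonnegative real number is computable: it is the limit of a computable sequence of rationals with
error at most `1 / (k + 1)` -/
def CR (x : ℝ) : Prop :=
  ∃ p q : ℕ → ℕ, Computable p ∧ Computable q ∧ ∀ k : ℕ, 0 < q k ∧ |x - (p k : ℝ) / q k| ≤ 1 / (k + 1)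

/-- the number of the `m ∈ [1, N]` with `p m` -/
def cnt (p : ℕ → Bool) (N : ℕ) : ℕ := Nat.rec 0 (fun y IH => IH + (p (y + 1)).toNat) N

theorem cnt_zero (p : ℕ → Bool) : cnt p 0 = 0 := rfl
theorem cnt_succ (p : ℕ → Bool) (N : ℕ) : cnt p (N + 1) = cnt p N + (p (N + 1)).toNat := rfl

theorem cnt_eq (p : ℕ → Bool) (N : ℕ) : cnt p N = ((Finset.Icc 1 N).filter fun m => p m = true).card := by
  induction N with
  | zero => rw [cnt_zero]; simp
  | succ N ih =>
    rw [cnt_succ, ih]
    have h : Finset.Icc 1 (N + 1) = insert (N + 1) (Finset.Icc 1 N) := by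
      ext x; simp only [Finset.mem_Icc, Finset.mem_insert]; omega
    rw [h, Finset.filter_insert]
    cases hp : p (N + 1)
    · simp
    · rw [if_pos rfl, Finset.card_insert_of_notMem]
      · simp
      · simp

theorem cnt_computable {α : Type*} [Primcodable α] {h : α → ℕ → Bool} {g : α → ℕ} (hh : Computable₂ h)
    (hg : Computable g) : Computable fun a => cnt (h a) (g a) := by
  unfold cnt
  apply Computable.nat_rec (f := g) (g := fun _ => 0)
    (h := fun (a : α) (x : ℕ × ℕ) => x.2 + (h a (x.1 + 1)).toNat) hg (Computable.const 0)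
  have h1 : Computable fun x : α × (ℕ × ℕ) => h x.1 (x.2.1 + 1) :=
    hh.comp Computable.fst (Computable.succ.comp (Computable.fst.comp Computable.snd))
  have h2 : Computable fun x : α × (ℕ × ℕ) => (h x.1 (x.2.1 + 1)).toNat :=
    (Primrec.dom_bool Bool.toNat).to_comp.comp h1
  exact (Primrec.nat_add.to_comp.comp (Computable.snd.comp Computable.snd) h2)

/-- stage functions of recursively enumerable predicates -/
theorem stage {α : Type*} [Primcodable α] {R : α → Prop} (hR : REPred R) :
    ∃ D : α → ℕ → Bool, Computable₂ D ∧ (∀ a, R a ↔ ∃ s, D a s = true) ∧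
      ∀ a s t, s ≤ t → D a s = true → D a t = true := by
  obtain ⟨c, hc⟩ := Code.exists_code.1 hR
  refine ⟨fun a s => (Code.evaln s c (Encodable.encode a)).isSome, ?_, ?_, ?_⟩
  · have h1 : Primrec fun x : α × ℕ => ((x.2, c), Encodable.encode x.1) :=
      Primrec.pair (Primrec.pair Primrec.snd (Primrec.const c)) (Primrec.encode.comp Primrec.fst)
    exact (Primrec.option_isSome.comp (Code.primrec_evaln.comp h1)).to_comp
  · intro a
    have h2 : (Code.eval c (Encodable.encode a)).Dom ↔ R a := by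
      rw [hc]
      simp [Part.dom_iff_mem]
    rw [← h2]
    constructor
    · intro h
      obtain ⟨x, hx⟩ := Part.dom_iff_mem.1 h
      obtain ⟨s, hs⟩ := Code.evaln_complete.1 hx
      exact ⟨s, by rw [Option.isSome_iff_exists]; exact ⟨x, hs⟩⟩
    · rintro ⟨s, hs⟩
      obtain ⟨x, hx⟩ := Option.isSome_iff_exists.1 hs
      exact Part.dom_iff_mem.2 ⟨x, Code.evaln_sound hx⟩
  · intro a s t hst hs
    obtain ⟨x, hx⟩ := Option.isSome_iff_exists.1 hs
    rw [Option.isSome_iff_exists]
    exact ⟨x, Code.evaln_mono hst hx⟩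

theorem re_of_exists {α : Type*} [Primcodable α] {h : α → ℕ → Bool} (hh : Computable₂ h) :
    REPred fun a => ∃ t, h a t = true := by
  have h1 : Partrec fun a => Nat.rfind fun t => Part.some (h a t) := Partrec.rfind hh.partrec₂
  refine (h1.dom_re).of_eq fun a => ?_
  refine Iff.trans Nat.rfind_dom ?_
  constructor
  · rintro ⟨n, hn, -⟩
    exact ⟨n, by simpa using hn⟩
  · rintro ⟨n, hn⟩
    exact ⟨n, by simpa using hn, fun _ => trivial⟩

/-- the number of the elements of `S` in `[1, N]` -/
noncomputable def num (S : Set ℕ) (N : ℕ) : ℕ := by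
  classical exact ((Finset.Icc 1 N).filter fun m => m ∈ S).card

theorem num_le_cnt {S : Set ℕ} {p : ℕ → Bool} {N : ℕ} (h : ∀ m ∈ Finset.Icc 1 N, m ∈ S → p m = true) :
    num S N ≤ cnt p N := by
  classical
  rw [cnt_eq]
  unfold num
  apply Finset.card_le_card
  intro m hm
  rw [Finset.mem_filter] at hm ⊢
  exact ⟨hm.1, h m hm.1 hm.2⟩

theorem cnt_le_num {S : Set ℕ} {p : ℕ → Bool} {N : ℕ} (h : ∀ m ∈ Finset.Icc 1 N, p m = true → m ∈ S) :
    cnt p N ≤ num S N := by
  classical
  rw [cnt_eq]
  unfold num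
  apply Finset.card_le_card
  intro m hm
  rw [Finset.mem_filter] at hm ⊢
  exact ⟨hm.1, h m hm.1 hm.2⟩

/-- the positive integers whose orbit meets the orbit of `n` -/
def Meet (f : ℕ → ℕ) (n : ℕ) : Set ℕ := {m | ∃ i j : ℕ, f^[i] m = f^[j] n}

variable {f : ℕ → ℕ} {S : Set ℕ}

theorem iter_pos (hpos : ∀ n, 0 < n → 0 < f n) {n : ℕ} (hn : 0 < n) (i : ℕ) : 0 < f^[i] n := by
  induction i with
  | zero => exact hn
  | succ i ih => rw [Function.iterate_succ_apply']; exact hpos _ ih

theorem iter_mem (hpos : ∀ n, 0 < n → 0 < f n) (hinv : ∀ n, 0 < n → (n ∈ S ↔ f n ∈ S)) {n : ℕ} (hn : 0 < n)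
    (i : ℕ) : f^[i] n ∈ S ↔ n ∈ S := by
  induction i with
  | zero => exact Iff.rfl
  | succ i ih => rw [Function.iterate_succ_apply', ← hinv _ (iter_pos hpos hn i), ih]

theorem meet_mem (hpos : ∀ n, 0 < n → 0 < f n) (hinv : ∀ n, 0 < n → (n ∈ S ↔ f n ∈ S)) {n m : ℕ}
    (hn : 0 < n) (hm : 0 < m) (h : m ∈ Meet f n) (hS : n ∈ S) : m ∈ S := by
  obtain ⟨i, j, h⟩ := h
  rw [← iter_mem hpos hinv hm i, h, iter_mem hpos hinv hn j]
  exact hS

/-- the main criterion -/
theorem comp_iff (hf : Primrec f) (hpos : ∀ n, 0 < n → 0 < f n) (h0 : 0 ∉ S)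
    (hinv : ∀ n, 0 < n → (n ∈ S ↔ f n ∈ S)) (hre : REPred fun n => n ∈ S)
    {M : ℕ → ℕ} (hM : Computable M) (hM0 : ∀ k, 0 < M k) {δ : ℝ}
    (hS : ∀ k : ℕ, |(num S (M k) : ℝ) - δ * M k| ≤ M k / (k + 1))
    (hW : ∀ n, 0 < n → n ∉ S → ∃ δ' : ℝ, δ < δ' ∧
      ∀ k : ℕ, |(num (S ∪ Meet f n) (M k) : ℝ) - δ' * M k| ≤ M k / (k + 1)) :
    ComputablePred (fun n => n ∈ S) ↔ CR δ := by
  classical
  constructor
  · intro hc
    obtain ⟨g, hg, hgS⟩ := ComputablePred.computable_iff.1 hc
    have hgS' : ∀ n, n ∈ S ↔ g n = true := fun n => by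
      have := congrFun hgS n
      exact iff_of_eq this
    refine ⟨fun k => cnt g (M k), M, ?_, hM, fun k => ⟨hM0 k, ?_⟩⟩
    · exact cnt_computable (h := fun _ : ℕ => g) (hg.comp Computable.snd) hM
    · have e : cnt g (M k) = num S (M k) :=
        le_antisymm (cnt_le_num fun m _ h => (hgS' m).2 h) (num_le_cnt fun m _ h => (hgS' m).1 h)
      show |δ - ((cnt g (M k) : ℕ) : ℝ) / M k| ≤ 1 / (k + 1)
      rw [e]
      have h1 := hS k
      have hMp : (0 : ℝ) < M k := by exact_mod_cast hM0 k
      have h2 : δ - (num S (M k) : ℝ) / M k = -(((num S (M k) : ℝ) - δ * M k) / M k) := by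
        field_simp
        ring
      rw [h2, abs_neg, abs_div, abs_of_pos hMp, div_le_iff₀ hMp]
      refine h1.trans (le_of_eq ?_)
      ring
  · rintro ⟨p, q, hp, hq, hpq⟩
    rw [ComputablePred.computable_iff_re_compl_re']
    refine ⟨hre, ?_⟩
    -- stage function of `m ∈ S ∪ Meet f n`
    obtain ⟨DS, hDS, hDS1, -⟩ := stage hre
    have hW1 : REPred fun x : ℕ × ℕ => x.2 ∈ S ∪ Meet f x.1 := by
      have hit : ∀ {β : Type} [Primcodable β] {a b : β → ℕ}, Primrec a → Primrec b →
          Primrec fun x => f^[a x] (b x) := by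
        intro β _ a b ha hb
        exact Primrec.nat_iterate ha hb (hf.comp Primrec.snd)
      have hun : Primrec fun x : (ℕ × ℕ) × ℕ => Nat.unpair x.2 := Primrec.unpair.comp Primrec.snd
      have hdec : Primrec fun x : (ℕ × ℕ) × ℕ =>
          decide (f^[(Nat.unpair x.2).1] x.1.2 = f^[(Nat.unpair x.2).2] x.1.1) := by
        have h1 := hit (Primrec.fst.comp hun) (Primrec.snd.comp Primrec.fst)
        have h2 := hit (Primrec.snd.comp hun) (Primrec.fst.comp Primrec.fst)
        exact (Primrec.eq.comp h1 h2).decide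
      have hcomp : Computable fun x : (ℕ × ℕ) × ℕ =>
          (DS x.1.2 x.2 || decide (f^[(Nat.unpair x.2).1] x.1.2 = f^[(Nat.unpair x.2).2] x.1.1)) := by
        have h1 : Computable fun x : (ℕ × ℕ) × ℕ => DS x.1.2 x.2 :=
          hDS.comp (Computable.snd.comp Computable.fst) Computable.snd
        exact Primrec.or.to_comp.comp h1 hdec.to_comp
      refine (re_of_exists (h := fun (x : ℕ × ℕ) (t : ℕ) =>
        (DS x.2 t || decide (f^[(Nat.unpair t).1] x.2 = f^[(Nat.unpair t).2] x.1))) hcomp).of_eq ?_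
      rintro ⟨n, m⟩
      simp only [Bool.or_eq_true, decide_eq_true_eq, Set.mem_union]
      rw [exists_or, ← hDS1 m]
      apply or_congr Iff.rfl
      constructor
      · rintro ⟨t, ht⟩; exact ⟨_, _, ht⟩
      · rintro ⟨i, j, h⟩; exact ⟨Nat.pair i j, by simpa using h⟩
    obtain ⟨D, hD, hD1, hD2⟩ := stage hW1
    -- the test
    set test : ℕ → ℕ → Bool := fun n t =>
      (decide (n = 0) || decide ((p t.unpair.1 * (t.unpair.1 + 1) + 2 * q t.unpair.1) * M t.unpair.1 <
        cnt (fun m => D (n, m) t.unpair.2) (M t.unpair.1) * (q t.unpair.1 * (t.unpair.1 + 1)))) with htest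
    have htc : Computable₂ test := by
      have hk : Computable fun x : ℕ × ℕ => (Nat.unpair x.2).1 :=
        (Primrec.fst.comp (Primrec.unpair.comp Primrec.snd)).to_comp
      have hs : Computable fun x : ℕ × ℕ => (Nat.unpair x.2).2 :=
        (Primrec.snd.comp (Primrec.unpair.comp Primrec.snd)).to_comp
      have hk1 : Computable fun x : ℕ × ℕ => (Nat.unpair x.2).1 + 1 := Computable.succ.comp hk
      have hpk : Computable fun x : ℕ × ℕ => p (Nat.unpair x.2).1 := hp.comp hk
      have hqk : Computable fun x : ℕ × ℕ => q (Nat.unpair x.2).1 := hq.comp hk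
      have hMk : Computable fun x : ℕ × ℕ => M (Nat.unpair x.2).1 := hM.comp hk
      have hcnt : Computable fun x : ℕ × ℕ => cnt (fun m => D (x.1, m) (Nat.unpair x.2).2) (M (Nat.unpair x.2).1) := by
        apply cnt_computable (h := fun (x : ℕ × ℕ) (m : ℕ) => D (x.1, m) (Nat.unpair x.2).2) _ hMk
        have h1 : Computable fun y : (ℕ × ℕ) × ℕ => (y.1.1, y.2) :=
          Computable.pair (Computable.fst.comp Computable.fst) Computable.snd
        have h2 : Computable fun y : (ℕ × ℕ) × ℕ => (Nat.unpair y.1.2).2 := hs.comp Computable.fst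
        exact hD.comp h1 h2
      have hmul := Primrec.nat_mul.to_comp
      have hadd := Primrec.nat_add.to_comp
      have hL : Computable fun x : ℕ × ℕ =>
          (p (Nat.unpair x.2).1 * ((Nat.unpair x.2).1 + 1) + 2 * q (Nat.unpair x.2).1) * M (Nat.unpair x.2).1 :=
        hmul.comp (hadd.comp (hmul.comp hpk hk1) (hmul.comp (Computable.const 2) hqk)) hMk
      have hR : Computable fun x : ℕ × ℕ =>
          cnt (fun m => D (x.1, m) (Nat.unpair x.2).2) (M (Nat.unpair x.2).1) *
            (q (Nat.unpair x.2).1 * ((Nat.unpair x.2).1 + 1)) :=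
        hmul.comp hcnt (hmul.comp hqk hk1)
      have hlt : Computable fun x : ℕ × ℕ => decide (
          (p (Nat.unpair x.2).1 * ((Nat.unpair x.2).1 + 1) + 2 * q (Nat.unpair x.2).1) * M (Nat.unpair x.2).1 <
          cnt (fun m => D (x.1, m) (Nat.unpair x.2).2) (M (Nat.unpair x.2).1) *
            (q (Nat.unpair x.2).1 * ((Nat.unpair x.2).1 + 1))) :=
        (Primrec.nat_lt.decide).to_comp.comp hL hR
      have hz : Computable fun x : ℕ × ℕ => decide (x.1 = 0) :=
        (Primrec.eq.comp Primrec.fst (Primrec.const 0)).decide.to_comp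
      exact Primrec.or.to_comp.comp hz hlt
    refine (re_of_exists htc).of_eq fun n => ?_
    rcases Nat.eq_zero_or_pos n with hn0 | hn
    · subst hn0
      simp [htest, h0]
    -- the criterion
    have hcast : ∀ k s : ℕ, ((p k * (k + 1) + 2 * q k) * M k <
        cnt (fun m => D (n, m) s) (M k) * (q k * (k + 1))) ↔
        ((p k : ℝ) / q k + 2 / (k + 1)) * M k < cnt (fun m => D (n, m) s) (M k) := by
      intro k s
      have hqp : (0 : ℝ) < q k := by exact_mod_cast (hpq k).1
      have hkp : (0 : ℝ) < (k : ℝ) + 1 := by positivity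
      rw [← Nat.cast_lt (α := ℝ)]
      push_cast
      have e : ((p k : ℝ) / q k + 2 / (k + 1)) * M k =
          (((p k : ℝ) * (k + 1) + 2 * q k) * M k) / (q k * (k + 1)) := by
        field_simp
      rw [e, div_lt_iff₀ (by positivity)]
    constructor
    · rintro ⟨t, ht⟩ hnS
      simp only [htest, Bool.or_eq_true, decide_eq_true_eq] at ht
      rcases ht with ht | ht
      · omega
      set k := t.unpair.1 with hk
      rw [hcast k] at ht
      have h1 : cnt (fun m => D (n, m) t.unpair.2) (M k) ≤ num S (M k) := by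
        apply cnt_le_num
        intro m hm1 hm2
        have h3 : m ∈ S ∪ Meet f n := (hD1 (n, m)).2 ⟨_, hm2⟩
        rcases h3 with h3 | h3
        · exact h3
        · exact meet_mem hpos hinv hn (by have := (Finset.mem_Icc.1 hm1).1; omega) h3 hnS
      have h1' : (cnt (fun m => D (n, m) t.unpair.2) (M k) : ℝ) ≤ num S (M k) := by exact_mod_cast h1
      have h2 := (abs_le.1 (hS k)).2
      have h3 := (abs_le.1 (hpq k).2).2
      have hMp : (0 : ℝ) < M k := by exact_mod_cast hM0 k
      have h4 : (δ - (p k : ℝ) / q k) * M k ≤ 1 / (k + 1) * M k := mul_le_mul_of_nonneg_right h3 hMp.le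
      have e1 : (M k : ℝ) / (k + 1) = 1 / (k + 1) * M k := by ring
      have e2 : ((p k : ℝ) / q k + 2 / (k + 1)) * M k = (p k : ℝ) / q k * M k + 1 / (k + 1) * M k + 1 / (k + 1) * M k := by
        ring
      rw [e1] at h2
      rw [e2] at ht
      linarith
    · intro hnS
      obtain ⟨δ', hδ', hrate⟩ := hW n hn hnS
      obtain ⟨k, hk⟩ := exists_nat_gt (4 / (δ' - δ))
      have hk4 : 4 / ((k : ℝ) + 1) < δ' - δ := by
        have hd : 0 < δ' - δ := by linarith
        rw [div_lt_iff₀ hd] at hk
        rw [div_lt_iff₀ (by positivity)]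
        nlinarith
      -- a stage at which all elements up to `M k` are found
      have hstage : ∃ s, ∀ m ∈ Finset.Icc 1 (M k), m ∈ S ∪ Meet f n → D (n, m) s = true := by
        have : ∀ F : Finset ℕ, ∃ s, ∀ m ∈ F, m ∈ S ∪ Meet f n → D (n, m) s = true := by
          intro F
          induction F using Finset.induction_on with
          | empty => exact ⟨0, by simp⟩
          | insert a F _ ih =>
            obtain ⟨s, hs⟩ := ih
            by_cases ha : a ∈ S ∪ Meet f n
            · obtain ⟨s', hs'⟩ := (hD1 (n, a)).1 ha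
              refine ⟨max s s', fun m hm hmS => ?_⟩
              rcases Finset.mem_insert.1 hm with rfl | hm
              · exact hD2 _ _ _ (le_max_right _ _) hs'
              · exact hD2 _ _ _ (le_max_left _ _) (hs m hm hmS)
            · refine ⟨s, fun m hm hmS => ?_⟩
              rcases Finset.mem_insert.1 hm with rfl | hm
              · exact absurd hmS ha
              · exact hs m hm hmS
        exact this _
      obtain ⟨s, hs⟩ := hstage
      refine ⟨Nat.pair k s, ?_⟩
      simp only [htest, Bool.or_eq_true, decide_eq_true_eq, Nat.unpair_pair]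
      right
      rw [hcast k]
      have h1 : num (S ∪ Meet f n) (M k) ≤ cnt (fun m => D (n, m) s) (M k) :=
        num_le_cnt fun m hm1 hm2 => hs m hm1 hm2
      have h1' : (num (S ∪ Meet f n) (M k) : ℝ) ≤ cnt (fun m => D (n, m) s) (M k) := by exact_mod_cast h1
      have h2 := (abs_le.1 (hrate k)).1
      have h3 := (abs_le.1 (hpq k).2).1
      have hMp : (0 : ℝ) < M k := by exact_mod_cast hM0 k
      have h4 : (-(1 / ((k : ℝ) + 1))) * M k ≤ (δ - (p k : ℝ) / q k) * M k := mul_le_mul_of_nonneg_right h3 hMp.le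
      have h5 : 4 / ((k : ℝ) + 1) * M k < (δ' - δ) * M k := mul_lt_mul_of_pos_right hk4 hMp
      have e1 : (M k : ℝ) / (k + 1) = 1 / (k + 1) * M k := by ring
      have e2 : ((p k : ℝ) / q k + 2 / (k + 1)) * M k = (p k : ℝ) / q k * M k + 1 / (k + 1) * M k + 1 / (k + 1) * M k := by
        ring
      have e3 : 4 / ((k : ℝ) + 1) * M k = 1 / (k + 1) * M k + 1 / (k + 1) * M k + 1 / (k + 1) * M k + 1 / (k + 1) * M k := by
        ring
      rw [e1] at h2
      rw [e2]
      rw [e3] at h5
      have hpos1 : 0 < 1 / ((k : ℝ) + 1) * M k := by positivity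
      linarith

end Pool.Agent.H749.Col
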