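import Pool.Agent.H749.Col.Zero
import Pool.Agent.TH237.RT.Int

set_option autoImplicit false

/-! From the rate of convergence to the density (starting file `TH237/RT/Int`) to the criterion for
computability. -/

namespace Pool.Agent.H749.Col

open Filter Topology Pool.Agent.TH237.RT Pool.Agent.H499R2.ND

/-- the Collatz map -/
def col (n : ℕ) : ℕ := if n % 2 = 0 then n / 2 else 3 * n + 1

theorem col_primrec : Primrec col := by
  have h1 : Primrec fun n : ℕ => n % 2 := Primrec.nat_mod.comp Primrec.id (Primrec.const 2)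
  have h2 : Primrec fun n : ℕ => n / 2 := Primrec.nat_div.comp Primrec.id (Primrec.const 2)
  have h3 : Primrec fun n : ℕ => 3 * n + 1 :=
    Primrec.succ.comp (Primrec.nat_mul.comp (Primrec.const 3) Primrec.id)
  exact Primrec.ite (Primrec.eq.comp h1 (Primrec.const 0)) h2 h3

theorem col_pos : ∀ n, 0 < n → 0 < col n := by
  intro n hn
  unfold col
  split_ifs with h
  · omega
  · omega

/-- the positive integers in `S`, as a set of integers -/
def Up (S : Set ℕ) : Set ℤ := {x | 0 < x ∧ x.toNat ∈ S}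

theorem up_inv {S : Set ℕ} (hinv : ∀ n, 0 < n → (n ∈ S ↔ col n ∈ S)) :
    ∀ x : ℤ, 0 < 1 * x → (x ∈ Up S ↔ Td 1 x ∈ Up S) := by
  intro x hx
  rw [one_mul] at hx
  obtain ⟨n, rfl⟩ := Int.eq_ofNat_of_zero_le hx.le
  have hn : 0 < n := by exact_mod_cast hx
  unfold Up Td
  simp only [Set.mem_setOf_eq]
  rcases Nat.mod_two_eq_zero_or_one n with h | h
  · rw [if_pos (by omega)]
    have e : ((n : ℤ) / 2).toNat = col n := by unfold col; rw [if_pos h]; omega
    rw [e, Int.toNat_natCast, ← hinv n hn]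
    constructor
    · rintro ⟨_, h2⟩; exact ⟨by omega, h2⟩
    · rintro ⟨_, h2⟩; exact ⟨by omega, h2⟩
  · rw [if_neg (by omega)]
    have e : ((3 * (n : ℤ) + 1) / 2).toNat = col (col n) := by
      have h1 : col n = 3 * n + 1 := by unfold col; rw [if_neg (by omega)]
      rw [h1]
      unfold col
      rw [if_pos (by omega)]
      omega
    rw [e, Int.toNat_natCast, ← hinv _ (col_pos n hn), ← hinv n hn]
    constructor
    · rintro ⟨_, h2⟩; exact ⟨by omega, h2⟩
    · rintro ⟨_, h2⟩; exact ⟨by omega, h2⟩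

theorem num_ncard (S : Set ℕ) (N : ℕ) : num S N = {n : ℕ | 1 ≤ n ∧ n ≤ N ∧ n ∈ S}.ncard := by
  classical
  unfold num
  rw [← Set.ncard_coe_finset]
  congr 1
  ext m
  simp only [Finset.coe_filter, Finset.mem_Icc, Set.mem_setOf_eq]
  tauto

theorem ci_eq (S : Set ℕ) (N : ℕ) : ci 1 (Up S) (N : ℝ) = num S N := by
  rw [num_ncard]
  unfold ci
  have e : {n : ℤ | 0 < 1 * n ∧ ((1 * n : ℤ) : ℝ) ≤ (N : ℝ) ∧ n ∈ Up S} =
      (fun m : ℕ => (m : ℤ)) '' {n : ℕ | 1 ≤ n ∧ n ≤ N ∧ n ∈ S} := by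
    ext x
    simp only [one_mul, Set.mem_setOf_eq, Set.mem_image, Up]
    constructor
    · rintro ⟨h1, h2, h3, h4⟩
      refine ⟨x.toNat, ⟨by omega, ?_, h4⟩, by omega⟩
      have h5 : x ≤ (N : ℤ) := by exact_mod_cast h2
      omega
    · rintro ⟨m, ⟨h1, h2, h3⟩, rfl⟩
      refine ⟨by omega, by exact_mod_cast h2, by omega, by simpa using h3⟩
  rw [e, Set.ncard_image_of_injective _ Nat.cast_injective]

theorem hasDens_of_rate {S : Set ℕ} {δ C : ℝ}
    (h : ∀ N : ℕ, 2 ≤ N → |(num S N : ℝ) - δ * N| ≤ C * N / (Real.log N) ^ (1 / 30 : ℝ)) : HasDens S δ := by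
  have hlog : Tendsto (fun N : ℕ => (Real.log (N : ℝ)) ^ (1 / 30 : ℝ)) atTop atTop :=
    ((tendsto_rpow_atTop (by norm_num)).comp Real.tendsto_log_atTop).comp tendsto_natCast_atTop_atTop
  have h0 : Tendsto (fun N : ℕ => C / (Real.log (N : ℝ)) ^ (1 / 30 : ℝ)) atTop (𝓝 0) :=
    Tendsto.div_atTop tendsto_const_nhds hlog
  unfold HasDens
  rw [tendsto_iff_norm_sub_tendsto_zero]
  apply squeeze_zero' (Eventually.of_forall fun N => norm_nonneg _) _ h0
  filter_upwards [eventually_ge_atTop 2] with N hN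
  have hN0 : (0 : ℝ) < N := by
    have : 0 < N := by omega
    exact_mod_cast this
  have h1 := h N hN
  rw [Real.norm_eq_abs, ← num_ncard]
  have e : (num S N : ℝ) / N - δ = ((num S N : ℝ) - δ * N) / N := by field_simp
  rw [e, abs_div, abs_of_pos hN0, div_le_iff₀ hN0]
  refine h1.trans (le_of_eq ?_)
  ring

/-- the scales -/
def scale (c k : ℕ) : ℕ := 2 ^ ((c * (k + 1)) ^ 30)

theorem pow_primrec : Primrec₂ ((· ^ ·) : ℕ → ℕ → ℕ) := Primrec₂.unpaired'.1 Nat.Primrec.pow

theorem scale_comp (c : ℕ) : Computable (scale c) := by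
  have h1 : Primrec fun k : ℕ => c * (k + 1) := Primrec.nat_mul.comp (Primrec.const c) Primrec.succ
  have h2 : Primrec fun k : ℕ => (c * (k + 1)) ^ 30 := pow_primrec.comp h1 (Primrec.const 30)
  exact (pow_primrec.comp (Primrec.const 2) h2).to_comp

theorem scale_pos (c k : ℕ) : 0 < scale c k := by unfold scale; positivity

theorem rate_scale {S : Set ℕ} {δ C : ℝ} {c : ℕ} (hC : 0 < C) (hc : 2 * C ≤ c)
    (h : ∀ N : ℕ, 2 ≤ N → |(num S N : ℝ) - δ * N| ≤ C * N / (Real.log N) ^ (1 / 30 : ℝ)) (k : ℕ) :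
    |(num S (scale c k) : ℝ) - δ * scale c k| ≤ scale c k / (k + 1) := by
  have hc0 : (0 : ℝ) < c := by linarith
  have hc0' : 0 < c := by exact_mod_cast hc0
  have h2 : 2 ≤ scale c k := by
    unfold scale
    calc 2 = 2 ^ 1 := by norm_num
      _ ≤ _ := Nat.pow_le_pow_right (by norm_num) (Nat.one_le_pow _ _ (by positivity))
  refine (h _ h2).trans ?_
  have hl2 : 0 < Real.log 2 := Real.log_pos (by norm_num)
  have hlog : Real.log (scale c k : ℝ) = ((c : ℝ) * (k + 1)) ^ 30 * Real.log 2 := by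
    unfold scale
    push_cast
    rw [Real.log_pow]
    push_cast
    ring
  have hroot : (Real.log (scale c k : ℝ)) ^ (1 / 30 : ℝ) = (c : ℝ) * (k + 1) * (Real.log 2) ^ (1 / 30 : ℝ) := by
    rw [hlog, Real.mul_rpow (by positivity) hl2.le, ← Real.rpow_natCast, ← Real.rpow_mul (by positivity)]
    norm_num
  have hhalf : 1 / 2 ≤ (Real.log 2) ^ (1 / 30 : ℝ) := by
    have h3 : (Real.log 2) ^ (1 : ℝ) ≤ (Real.log 2) ^ (1 / 30 : ℝ) :=
      Real.rpow_le_rpow_of_exponent_ge hl2 (by have := Real.log_two_lt_d9; linarith) (by norm_num)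
    rw [Real.rpow_one] at h3
    have := Real.log_two_gt_d9
    linarith
  rw [hroot]
  have hs : (0 : ℝ) ≤ scale c k := by positivity
  rw [div_le_div_iff₀ (by positivity) (by positivity)]
  have h4 : C ≤ c * (Real.log 2) ^ (1 / 30 : ℝ) := by nlinarith
  have hk : (0 : ℝ) < (k : ℝ) + 1 := by positivity
  calc C * scale c k * ((k : ℝ) + 1) = C * (scale c k * ((k : ℝ) + 1)) := by ring
    _ ≤ (c * (Real.log 2) ^ (1 / 30 : ℝ)) * (scale c k * ((k : ℝ) + 1)) :=
        mul_le_mul_of_nonneg_right h4 (by positivity)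
    _ = _ := by ring

theorem meet_inv (n : ℕ) (m : ℕ) : m ∈ Meet col n ↔ col m ∈ Meet col n := by
  constructor
  · rintro ⟨i, j, h⟩
    refine ⟨i, j + 1, ?_⟩
    rw [← Function.iterate_succ_apply, Function.iterate_succ_apply', Function.iterate_succ_apply', h]
  · rintro ⟨i, j, h⟩
    exact ⟨i + 1, j, by rw [Function.iterate_succ_apply]; exact h⟩

theorem num_union {S V : Set ℕ} (h : Disjoint S V) (N : ℕ) : num (S ∪ V) N = num S N + num V N := by
  classical
  unfold num
  rw [← Finset.card_union_of_disjoint]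
  · congr 1
    ext m
    simp only [Finset.mem_filter, Finset.mem_union, Set.mem_union]
    tauto
  · rw [Finset.disjoint_left]
    intro m h1 h2
    rw [Finset.mem_filter] at h1 h2
    exact Set.disjoint_left.1 h h1.2 h2.2

/-- **Criterion.** A recursively enumerable set of positive integers which is invariant under the Collatz map
has a natural density, and it is computable if and only if this density is a computable real. -/
theorem criterion : ∀ S : Set ℕ, 0 ∉ S → (∀ n, 0 < n → (n ∈ S ↔ col n ∈ S)) → REPred (fun n => n ∈ S) →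
    ∃ δ : ℝ, 0 ≤ δ ∧ δ ≤ 1 ∧ (δ = 0 ↔ S = ∅) ∧ HasDens S δ ∧ (ComputablePred (fun n => n ∈ S) ↔ CR δ) := by
  obtain ⟨C, hC, hrate⟩ := int_rate
  obtain ⟨c, hc⟩ := exists_nat_ge (2 * C)
  have key : ∀ S : Set ℕ, (∀ n, 0 < n → (n ∈ S ↔ col n ∈ S)) → ∃ δ : ℝ, 0 ≤ δ ∧ δ ≤ 1 ∧
      (δ = 0 → ∀ n, 0 < n → n ∉ S) ∧
      ∀ N : ℕ, 2 ≤ N → |(num S N : ℝ) - δ * N| ≤ C * N / (Real.log N) ^ (1 / 30 : ℝ) := by
    intro S hinv
    obtain ⟨δ, h0, h1, h2, -, h3⟩ := hrate 1 (Or.inl rfl) (Up S) (up_inv hinv)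
    refine ⟨δ, h0, h1, fun hδ n hn hnS => ?_, fun N hN => ?_⟩
    · exact h2.1 hδ (n : ℤ) (by omega) ⟨by omega, by simpa using hnS⟩
    · have := h3 (N : ℝ) (by exact_mod_cast hN)
      rwa [ci_eq] at this
  intro S h0 hinv hre
  obtain ⟨δ, hδ0, hδ1, hδ2, hδ3⟩ := key S hinv
  have hdens := hasDens_of_rate hδ3
  refine ⟨δ, hδ0, hδ1, ⟨fun h => ?_, fun h => ?_⟩, hdens, ?_⟩
  · rw [Set.eq_empty_iff_forall_notMem]
    intro n hn
    rcases Nat.eq_zero_or_pos n with rfl | hp
    · exact h0 hn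
    · exact hδ2 h n hp hn
  · have h1 : HasDens S 0 := by
      unfold HasDens
      rw [h]
      simp
    exact tendsto_nhds_unique hdens h1
  · refine comp_iff col_primrec col_pos h0 hinv hre (scale_comp c) (scale_pos c)
      (fun k => rate_scale hC hc hδ3 k) (fun n hn hnS => ?_)
    -- the union with the class of `n`
    have hWinv : ∀ m, 0 < m → (m ∈ S ∪ Meet col n ↔ col m ∈ S ∪ Meet col n) := fun m hm =>
      or_congr (hinv m hm) (meet_inv n m)
    have hdisj : Disjoint S (Meet col n \ S) := Set.disjoint_sdiff_right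
    have hVinv : ∀ m, 0 < m → (m ∈ Meet col n \ S ↔ col m ∈ Meet col n \ S) := fun m hm =>
      and_congr (meet_inv n m) (not_congr (hinv m hm))
    obtain ⟨δ', -, -, -, hδ'⟩ := key _ hWinv
    obtain ⟨ν, hν0, -, hν2, hν⟩ := key _ hVinv
    have hνpos : 0 < ν := by
      rcases lt_or_eq_of_le hν0 with h | h
      · exact h
      · exact absurd ⟨⟨0, 0, rfl⟩, hnS⟩ (hν2 h.symm n hn)
    refine ⟨δ', ?_, fun k => rate_scale hC hc hδ' k⟩
    have hlim : HasDens (S ∪ Meet col n) (δ + ν) := by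
      have hsum := hdens.add (hasDens_of_rate hν)
      unfold HasDens
      refine hsum.congr fun N => ?_
      rw [← num_ncard, ← num_ncard, ← num_ncard]
      have e : S ∪ Meet col n = S ∪ (Meet col n \ S) := by rw [Set.union_diff_self]
      rw [e, num_union hdisj]
      push_cast
      ring
    have := tendsto_nhds_unique (hasDens_of_rate hδ') hlim
    linarith

end Pool.Agent.H749.Col
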