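import Pool.Agent.H749.Col.Gen

set_option autoImplicit false

/-! Almost all integers that reach `1` under the Collatz map reach it in at most `8 log_2 n` steps. -/

namespace Pool.Agent.H749.Col

open Filter Topology

theorem A_inv' : ∀ n, 0 < n → (n ∈ Aset ↔ col n ∈ Aset) := by
  intro n hn
  constructor
  · rintro ⟨-, k, hk⟩
    refine ⟨col_pos n hn, ?_⟩
    rcases k with _ | k
    · have h1 : n = 1 := hk
      subst h1
      exact ⟨2, by decide⟩
    · exact ⟨k, by rwa [Function.iterate_succ_apply] at hk⟩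
  · rintro ⟨-, k, hk⟩
    exact ⟨hn, k + 1, by rw [Function.iterate_succ_apply]; exact hk⟩

theorem A_iff {n : ℕ} (hn : 0 < n) : n ∈ Aset ↔ n ∈ K 1 := by
  constructor
  · rintro ⟨-, k, hk⟩
    exact ⟨k, 0, hk⟩
  · rintro ⟨i, j, h⟩
    have h1 : col^[j] 1 ∈ Aset := (iter_mem col_pos A_inv' (by norm_num : 0 < 1) j).2 ⟨by norm_num, 0, rfl⟩
    rw [← h] at h1
    exact (iter_mem col_pos A_inv' hn i).1 h1

theorem AB_zero : HasDens (Aset \ Bset) 0 := by
  obtain ⟨δ, hδ, -, hlaw⟩ := Pool.Agent.Results.MP_2d22f3_nt.CentralLimit.result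
  obtain ⟨h0, h1, -⟩ := hδ 1 le_rfl
  have hK : HasDens (K 1) (δ 1) := h1
  have hA : HasDens Aset (δ 1) := by
    unfold HasDens at *
    refine hK.congr fun N => ?_
    congr 3
    ext n
    constructor
    · rintro ⟨g1, g2, g3⟩; exact ⟨g1, g2, (A_iff g1).2 g3⟩
    · rintro ⟨g1, g2, g3⟩; exact ⟨g1, g2, (A_iff g1).1 g3⟩
  refine zero_dens hA fun ε hε => ?_
  have hc := ProbabilityTheory.tendsto_cdf_atTop (ProbabilityTheory.gaussianReal 0 1)
  obtain ⟨x, hx⟩ : ∃ x : ℝ, 1 - ε / δ 1 < ProbabilityTheory.cdf (ProbabilityTheory.gaussianReal 0 1) x :=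
    (hc.eventually (lt_mem_nhds (by have : 0 < ε / δ 1 := by positivity
                                    linarith : 1 - ε / δ 1 < 1))).exists
  refine ⟨{n | 0 < n ∧ ∃ k : ℕ, (k : ℝ) ≤ 3 / Real.log (4 / 3) * Real.log n
      + x * (Real.log 6 * Real.sqrt (2 * Real.log n / Real.log (4 / 3) ^ 3)) ∧ col^[k] n = 1}, ?_, ?_,
    δ 1 * ProbabilityTheory.cdf (ProbabilityTheory.gaussianReal 0 1) x, ?_, ?_⟩
  · rintro n ⟨hn, k, -, hk⟩
    exact ⟨hn, k, hk⟩
  · filter_upwards [bound_lt x (Real.log 6), eventually_ge_atTop 1] with n hn hn1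
    rintro ⟨hn0, k, hk1, hk2⟩
    exact ⟨hn0, k, pow_le_of_bound hn1 (hk1.trans hn), hk2⟩
  · have e : δ 1 * (1 - ε / δ 1) = δ 1 - ε := by field_simp
    rw [← e]
    exact mul_le_mul_of_nonneg_left hx.le h0.le
  · have h : Tendsto (fun N : ℕ => ({n : ℕ | 1 ≤ n ∧ n ≤ N ∧ (∃ k : ℕ, (k : ℝ) ≤ 3 / Real.log (4 / 3) * Real.log n
          + x * (Real.log 6 * Real.sqrt (2 * Real.log n / Real.log (4 / 3) ^ 3)) ∧ col^[k] n = 1)}.ncard : ℝ) / N)
        atTop (𝓝 (δ 1 * ProbabilityTheory.cdf (ProbabilityTheory.gaussianReal 0 1) x)) := hlaw x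
    unfold HasDens
    refine h.congr fun N => ?_
    congr 3
    ext n
    constructor
    · rintro ⟨g1, g2, g3⟩; exact ⟨g1, g2, g1, g3⟩
    · rintro ⟨g1, g2, -, g3⟩; exact ⟨g1, g2, g3⟩

end Pool.Agent.H749.Col
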