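import Pool.Agent.H749.Col.Zero

set_option autoImplicit false

/-! Generalised Collatz maps on pairs of natural numbers, and computable time bounds. -/

namespace Pool.Agent.H749.IterG

open Pool.Agent.H749.Col Filter Topology

/-- a finite table -/
def tab (d : ℕ) (h : ℕ → ℕ) (i : ℕ) : ℕ := ((List.range d).map h).getD i 0

theorem tab_eq {d : ℕ} {h : ℕ → ℕ} {i : ℕ} (hi : i < d) : tab d h i = h i := by
  unfold tab
  simp [List.getD_eq_getElem?_getD, hi]

theorem tab_primrec (d : ℕ) (h : ℕ → ℕ) : Primrec (tab d h) :=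
  (Primrec.list_getD 0).comp (Primrec.const ((List.range d).map h)) Primrec.id

variable (d : ℕ) (m r : ℕ → ℤ)

/-- the generalised Collatz map -/
def TT (x : ℤ) : ℤ := (m (x % d).toNat * x - r (x % d).toNat) / d

def idx (p : ℕ × ℕ) : ℕ := (p.1 + (d - 1) * p.2) % d
def uu (p : ℕ × ℕ) : ℕ := tab d (fun i => (m i).toNat) (idx d p) * p.1 +
  tab d (fun i => (-m i).toNat) (idx d p) * p.2 + tab d (fun i => (-r i).toNat) (idx d p)
def vv (p : ℕ × ℕ) : ℕ := tab d (fun i => (-m i).toNat) (idx d p) * p.1 +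
  tab d (fun i => (m i).toNat) (idx d p) * p.2 + tab d (fun i => (r i).toNat) (idx d p)

/-- the map on pairs `(a, b)`, which stand for `a - b` -/
def step (p : ℕ × ℕ) : ℕ × ℕ := ((uu d m r p - vv d m r p) / d, (vv d m r p - uu d m r p) / d)

theorem step_primrec : Primrec (step d m r) := by
  have hidx : Primrec (idx d) := by
    unfold idx
    exact Primrec.nat_mod.comp (Primrec.nat_add.comp Primrec.fst
      (Primrec.nat_mul.comp (Primrec.const (d - 1)) Primrec.snd)) (Primrec.const d)
  have ht : ∀ h : ℕ → ℕ, Primrec fun p : ℕ × ℕ => tab d h (idx d p) := fun h => (tab_primrec d h).comp hidx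
  have hu : Primrec (uu d m r) := by
    unfold uu
    exact Primrec.nat_add.comp (Primrec.nat_add.comp (Primrec.nat_mul.comp (ht _) Primrec.fst)
      (Primrec.nat_mul.comp (ht _) Primrec.snd)) (ht _)
  have hv : Primrec (vv d m r) := by
    unfold vv
    exact Primrec.nat_add.comp (Primrec.nat_add.comp (Primrec.nat_mul.comp (ht _) Primrec.fst)
      (Primrec.nat_mul.comp (ht _) Primrec.snd)) (ht _)
  unfold step
  exact Primrec.pair (Primrec.nat_div.comp (Primrec.nat_sub.comp hu hv) (Primrec.const d))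
    (Primrec.nat_div.comp (Primrec.nat_sub.comp hv hu) (Primrec.const d))

variable {d m r}

theorem step_val (hd : 2 ≤ d) (hr : ∀ i < d, r i ≡ i * m i [ZMOD d]) (p : ℕ × ℕ) :
    ((step d m r p).1 : ℤ) - (step d m r p).2 = TT d m r ((p.1 : ℤ) - p.2) := by
  set x : ℤ := (p.1 : ℤ) - p.2 with hx
  have hd0 : (0 : ℤ) < d := by exact_mod_cast (by omega : 0 < d)
  have hi0 : (x % (d : ℤ)) = ((idx d p : ℕ) : ℤ) := by
    unfold idx
    push_cast
    have e : ((d - 1 : ℕ) : ℤ) = (d : ℤ) - 1 := by push_cast [Nat.cast_sub (by omega : 1 ≤ d)]; ring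
    rw [e]
    apply Int.emod_emod_of_dvd x (dvd_refl (d : ℤ)) |>.symm.trans
    have h1 : (p.1 : ℤ) + ((d : ℤ) - 1) * p.2 = x + d * p.2 := by rw [hx]; ring
    rw [h1, Int.add_mul_emod_self_left, Int.emod_emod_of_dvd x (dvd_refl (d : ℤ))]
  have hi : (x % (d : ℤ)).toNat = idx d p := by rw [hi0, Int.toNat_natCast]
  have hid : idx d p < d := Nat.mod_lt _ (by omega)
  set i := idx d p with hidef
  have hu : ((uu d m r p : ℕ) : ℤ) - (vv d m r p : ℕ) = m i * x - r i := by
    unfold uu vv
    rw [← hidef, tab_eq hid, tab_eq hid, tab_eq hid, tab_eq hid]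
    push_cast
    have h1 : ((m i).toNat : ℤ) - ((-m i).toNat : ℤ) = m i := Int.toNat_sub_toNat_neg _
    have h2 : ((r i).toNat : ℤ) - ((-r i).toNat : ℤ) = r i := Int.toNat_sub_toNat_neg _
    have h1' : ((m i).toNat : ℤ) = m i + ((-m i).toNat : ℤ) := by linarith
    have h2' : ((r i).toNat : ℤ) = r i + ((-r i).toNat : ℤ) := by linarith
    simp only [Int.ofNat_toNat] at h1' h2' ⊢
    rw [h1', h2', hx]
    ring
  have hdvd : (d : ℤ) ∣ m i * x - r i := by
    have h1 := (hr i hid).dvd
    have h2 : (d : ℤ) ∣ x - i := by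
      have h3 := Int.emod_emod_of_dvd x (dvd_refl (d : ℤ))
      rw [← hi0]
      exact Int.dvd_self_sub_emod
    have e : m i * x - r i = m i * (x - i) + (i * m i - r i) := by ring
    rw [e]
    exact dvd_add (h2.mul_left _) h1
  obtain ⟨q, hq⟩ := hdvd
  have hT : TT d m r x = q := by
    unfold TT
    rw [hi, hq]
    exact Int.mul_ediv_cancel_left q hd0.ne'
  rw [hT]
  rw [hq] at hu
  unfold step
  simp only
  rcases le_total 0 q with h | h
  · obtain ⟨t, rfl⟩ := Int.eq_ofNat_of_zero_le h
    have h3 : uu d m r p = vv d m r p + d * t := by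
      have : ((uu d m r p : ℕ) : ℤ) = ((vv d m r p + d * t : ℕ) : ℤ) := by push_cast; linarith
      exact_mod_cast this
    rw [h3]
    have e1 : vv d m r p + d * t - vv d m r p = d * t := by omega
    have e2 : vv d m r p - (vv d m r p + d * t) = 0 := by omega
    rw [e1, e2, Nat.mul_div_cancel_left _ (by omega : 0 < d)]
    simp
  · obtain ⟨t, ht⟩ := Int.eq_ofNat_of_zero_le (neg_nonneg.2 h)
    have hq' : q = -(t : ℤ) := by linarith
    have h3 : vv d m r p = uu d m r p + d * t := by
      have : ((vv d m r p : ℕ) : ℤ) = ((uu d m r p + d * t : ℕ) : ℤ) := by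
        push_cast
        rw [hq'] at hu
        linarith
      exact_mod_cast this
    rw [h3]
    have e1 : uu d m r p + d * t - uu d m r p = d * t := by omega
    have e2 : uu d m r p - (uu d m r p + d * t) = 0 := by omega
    rw [e1, e2, Nat.mul_div_cancel_left _ (by omega : 0 < d), hq']
    simp

theorem iter_val (hd : 2 ≤ d) (hr : ∀ i < d, r i ≡ i * m i [ZMOD d]) (k : ℕ) (p : ℕ × ℕ) :
    (((step d m r)^[k] p).1 : ℤ) - ((step d m r)^[k] p).2 = (TT d m r)^[k] ((p.1 : ℤ) - p.2) := by
  induction k with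
  | zero => rfl
  | succ k ih => rw [Function.iterate_succ_apply', Function.iterate_succ_apply', step_val hd hr, ih]

end Pool.Agent.H749.IterG
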