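import Pool.Agent.H749.Col.IterG
import Pool.Agent.Results.MP_39d40e_nt.AlmostBounded

set_option autoImplicit false

/-! A computable time bound for generalised Collatz maps, good for almost all starting values. -/

namespace Pool.Agent.H749.IterG

open Pool.Agent.H749.Col Filter Topology

theorem pow_primrec' : Primrec₂ fun a b : ℕ => a ^ b := by
  have h : Primrec fun x : ℕ × ℕ => (fun y => x.1 * y)^[x.2] 1 :=
    Primrec.nat_iterate (f := fun x : ℕ × ℕ => x.2) (g := fun _ => 1) (h := fun x y => x.1 * y) Primrec.snd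
      (Primrec.const 1) (Primrec.nat_mul.comp (Primrec.fst.comp Primrec.fst) Primrec.snd)
  refine h.of_eq fun x => ?_
  have : ∀ n : ℕ, (fun y => x.1 * y)^[n] 1 = x.1 ^ n := by
    intro n
    induction n with
    | zero => rfl
    | succ n ih => rw [Function.iterate_succ_apply', ih, pow_succ']
  exact this x.2

theorem mu {h : ℕ → ℕ → Bool} (hh : Computable₂ h) (ht : ∀ n, ∃ t, h n t = true) :
    ∃ g : ℕ → ℕ, Computable g ∧ (∀ n, h n (g n) = true) ∧ ∀ n t, h n t = true → g n ≤ t := by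
  classical
  refine ⟨fun n => Nat.find (ht n), ?_, fun n => Nat.find_spec (ht n), fun n t h => Nat.find_min' (ht n) h⟩
  have h1 : Partrec fun a => Nat.rfind fun t => Part.some (h a t) := Partrec.rfind hh.partrec₂
  refine h1.of_eq fun a => ?_
  refine Part.eq_some_iff.2 (Nat.mem_rfind.2 ⟨?_, ?_⟩)
  · have := Nat.find_spec (ht a)
    simp [this]
  · intro k hk
    have := Nat.find_min (ht a) hk
    simp only [Bool.not_eq_true] at this
    simp [this]

theorem cnt_all (p : ℕ → Bool) (N : ℕ) : cnt p N = N ↔ ∀ k, 1 ≤ k → k ≤ N → p k = true := by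
  rw [cnt_eq]
  have h : N = (Finset.Icc 1 N).card := by simp
  conv_lhs => rhs; rw [h]
  rw [Finset.card_filter_eq_iff]
  simp only [Finset.mem_Icc]
  exact ⟨fun h k h1 h2 => h k ⟨h1, h2⟩, fun h k hk => h k hk.1 hk.2⟩

theorem cnt_none (p : ℕ → Bool) (N : ℕ) : cnt p N = 0 ↔ ∀ k, 1 ≤ k → k ≤ N → ¬ p k = true := by
  rw [cnt_eq, Finset.card_eq_zero, Finset.filter_eq_empty_iff]
  simp only [Finset.mem_Icc]
  exact ⟨fun h k h1 h2 => h ⟨h1, h2⟩, fun h k hk => h k hk.1 hk.2⟩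

def small (q : ℕ × ℕ) (y : ℕ) : Bool := decide (q.1 ≤ q.2 + y) && decide (q.2 ≤ q.1 + y)

theorem small_iff (q : ℕ × ℕ) (y : ℕ) : small q y = true ↔ |((q.1 : ℤ) - q.2)| ≤ y := by
  unfold small
  simp only [Bool.and_eq_true, decide_eq_true_eq, abs_le]
  omega

theorem small_primrec : Primrec fun x : (ℕ × ℕ) × ℕ => small x.1 x.2 := by
  unfold small
  have h1 : Primrec fun x : (ℕ × ℕ) × ℕ => decide (x.1.1 ≤ x.1.2 + x.2) :=
    (Primrec.nat_le.comp (Primrec.fst.comp Primrec.fst) (Primrec.nat_add.comp (Primrec.snd.comp Primrec.fst)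
      Primrec.snd)).decide
  have h2 : Primrec fun x : (ℕ × ℕ) × ℕ => decide (x.1.2 ≤ x.1.1 + x.2) :=
    (Primrec.nat_le.comp (Primrec.snd.comp Primrec.fst) (Primrec.nat_add.comp (Primrec.fst.comp Primrec.fst)
      Primrec.snd)).decide
  exact Primrec.and.comp h1 h2

variable (d : ℕ) (m r : ℕ → ℤ)

/-- no term up to time `a.2` of the trajectory of `a.1.1` is `≤ a.1.2` in absolute value -/
def nev (a : (ℕ × ℕ) × ℕ) : Bool :=
  decide (cnt (fun k => small ((step d m r)^[k - 1] (a.1.1, 0)) a.1.2) (a.2 + 1) = 0)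

def lev1 (c₀ : ℕ) (a : (ℕ × ℕ) × ℕ) : Bool :=
  decide (cnt (fun x => nev d m r ((x, 2 ^ a.1.2), a.2)) a.1.1 * a.1.2 ≤ c₀ * a.1.1)

def lev2 (c₀ : ℕ) (a : ℕ × ℕ) : Bool :=
  decide (cnt (fun j => lev1 d m r c₀ ((a.1, j), a.2)) a.1 = a.1)

def lev3 (c₀ : ℕ) (n t : ℕ) : Bool :=
  decide (cnt (fun X => lev2 d m r c₀ (X, t)) (n * n) = n * n)

theorem nev_computable : Computable (nev d m r) := by
  unfold nev
  have h0 : Primrec fun x : ((ℕ × ℕ) × ℕ) × ℕ => (step d m r)^[x.2 - 1] (x.1.1.1, 0) :=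
    Primrec.nat_iterate (Primrec.nat_sub.comp Primrec.snd (Primrec.const 1))
      (Primrec.pair (Primrec.fst.comp (Primrec.fst.comp Primrec.fst)) (Primrec.const 0))
      ((step_primrec d m r).comp Primrec.snd)
  have h1 : Computable₂ fun (a : (ℕ × ℕ) × ℕ) (k : ℕ) => small ((step d m r)^[k - 1] (a.1.1, 0)) a.1.2 :=
    (small_primrec.comp (Primrec.pair h0 (Primrec.snd.comp (Primrec.fst.comp Primrec.fst)))).to_comp
  have h2 := cnt_computable h1 (Computable.succ.comp Computable.snd)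
  exact (Primrec.eq (α := ℕ)).decide.to_comp.comp h2 (Computable.const 0)

theorem lev1_computable (c₀ : ℕ) : Computable (lev1 d m r c₀) := by
  unfold lev1
  have h1 : Computable₂ fun (a : (ℕ × ℕ) × ℕ) (x : ℕ) => nev d m r ((x, 2 ^ a.1.2), a.2) := by
    have : Computable fun z : ((ℕ × ℕ) × ℕ) × ℕ => (((z.2, 2 ^ z.1.1.2), z.1.2) : (ℕ × ℕ) × ℕ) :=
      (Primrec.pair (Primrec.pair Primrec.snd (pow_primrec'.comp (Primrec.const 2)
        (Primrec.snd.comp (Primrec.fst.comp Primrec.fst)))) (Primrec.snd.comp Primrec.fst)).to_comp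
    exact (nev_computable d m r).comp this
  have h2 := cnt_computable h1 (Computable.fst.comp Computable.fst)
  exact Primrec.nat_le.decide.to_comp.comp (Primrec.nat_mul.to_comp.comp h2 (Computable.snd.comp Computable.fst))
    (Primrec.nat_mul.to_comp.comp (Computable.const c₀) (Computable.fst.comp Computable.fst))

theorem lev2_computable (c₀ : ℕ) : Computable (lev2 d m r c₀) := by
  unfold lev2
  have h1 : Computable₂ fun (a : ℕ × ℕ) (j : ℕ) => lev1 d m r c₀ ((a.1, j), a.2) :=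
    (lev1_computable d m r c₀).comp (Primrec.pair (Primrec.pair (Primrec.fst.comp Primrec.fst) Primrec.snd)
      (Primrec.snd.comp Primrec.fst)).to_comp
  have h2 := cnt_computable h1 Computable.fst
  exact (Primrec.eq (α := ℕ)).decide.to_comp.comp h2 Computable.fst

theorem lev3_computable (c₀ : ℕ) : Computable₂ (lev3 d m r c₀) := by
  unfold lev3
  have h1 : Computable₂ fun (a : ℕ × ℕ) (X : ℕ) => lev2 d m r c₀ (X, a.2) :=
    (lev2_computable d m r c₀).comp (Primrec.pair Primrec.snd (Primrec.snd.comp Primrec.fst)).to_comp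
  have hg : Computable fun a : ℕ × ℕ => a.1 * a.1 := (Primrec.nat_mul.comp Primrec.fst Primrec.fst).to_comp
  have h2 := cnt_computable h1 hg
  exact (Primrec.eq (α := ℕ)).decide.to_comp.comp h2 hg

variable {d m r}

theorem nev_iff (hd : 2 ≤ d) (hr : ∀ i < d, r i ≡ i * m i [ZMOD d]) (x y t : ℕ) :
    nev d m r ((x, y), t) = true ↔ ∀ k ≤ t, ¬ |(TT d m r)^[k] (x : ℤ)| ≤ (y : ℤ) := by
  unfold nev
  rw [decide_eq_true_eq, cnt_none]
  have e : ∀ k, (small ((step d m r)^[k] (x, 0)) y = true ↔ |(TT d m r)^[k] (x : ℤ)| ≤ (y : ℤ)) := by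
    intro k
    rw [small_iff, iter_val hd hr]
    simp
  constructor
  · intro h k hk hc
    have := h (k + 1) (by omega) (by simpa using hk)
    simp only [Nat.add_sub_cancel] at this
    exact this ((e k).2 hc)
  · intro h k hk1 hk2 hc
    exact h (k - 1) (by simp at hk2; omega) ((e (k - 1)).1 hc)

theorem ex_time (hd : 2 ≤ d) (hr : ∀ i < d, r i ≡ i * m i [ZMOD d]) {C : ℝ} (hC : 0 < C)
    (hmain : ∀ X y : ℝ, 1 ≤ X → 2 ≤ y →
      (Set.ncard {x : ℤ | |(x : ℝ)| ≤ X ∧ ∀ n : ℕ, y < |(((TT d m r)^[n] x : ℤ) : ℝ)|} : ℝ) ≤ C * X / Real.log y ^ 1)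
    (c₀ : ℕ) (hc₀ : 2 * C ≤ c₀) (n : ℕ) : ∃ t, lev3 d m r c₀ n t = true := by
  classical
  set κ : ℕ × ℕ → ℕ := fun p => if h : ∃ k, |(TT d m r)^[k] (p.1 : ℤ)| ≤ ((2 ^ p.2 : ℕ) : ℤ) then Nat.find h else 0 with hκ
  set t := ((Finset.range (n * n + 1)) ×ˢ (Finset.range (n * n + 1))).sup κ with ht
  refine ⟨t, ?_⟩
  unfold lev3
  rw [decide_eq_true_eq, cnt_all]
  intro X hX1 hX2
  unfold lev2
  rw [decide_eq_true_eq, cnt_all]
  intro j hj1 hj2
  unfold lev1
  rw [decide_eq_true_eq]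
  simp only at *
  have h1 : cnt (fun x => nev d m r ((x, 2 ^ j), t)) X ≤
      Set.ncard {x : ℤ | |(x : ℝ)| ≤ (X : ℝ) ∧ ∀ n : ℕ, (2 : ℝ) ^ j < |(((TT d m r)^[n] x : ℤ) : ℝ)|} := by
    rw [cnt_eq, ← Set.ncard_coe_finset, ← Set.ncard_image_of_injective _ (Nat.cast_injective (R := ℤ))]
    apply Set.ncard_le_ncard
    · rintro _ ⟨x, hx, rfl⟩
      rw [Finset.mem_coe, Finset.mem_filter, Finset.mem_Icc, nev_iff hd hr] at hx
      obtain ⟨⟨hx1, hx2⟩, hx3⟩ := hx
      refine ⟨?_, ?_⟩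
      · rw [abs_of_nonneg (by positivity)]; exact_mod_cast hx2
      · intro k
        by_contra hcon
        have hex : ∃ k, |(TT d m r)^[k] ((x, j).1 : ℤ)| ≤ ((2 ^ (x, j).2 : ℕ) : ℤ) := by
          refine ⟨k, ?_⟩
          have := not_lt.1 hcon
          exact_mod_cast this
        have hle : κ (x, j) ≤ t := Finset.le_sup (f := κ)
          (Finset.mem_product.2 ⟨Finset.mem_range.2 (by show x < n * n + 1; omega), Finset.mem_range.2 (by show j < n * n + 1; omega)⟩)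
        have hk : κ (x, j) = Nat.find hex := by
          simp only [hκ]
          exact dif_pos hex
        exact hx3 (Nat.find hex) (hk ▸ hle) (Nat.find_spec hex)
    · apply (Set.finite_Icc (-(X : ℤ)) X).subset
      rintro x ⟨hx, -⟩
      have := abs_le.1 hx
      constructor
      · exact_mod_cast this.1
      · exact_mod_cast this.2
  have hX1' : (1 : ℝ) ≤ X := by exact_mod_cast hX1
  have hj1' : (1 : ℝ) ≤ j := by exact_mod_cast hj1
  have h2 := hmain X (2 ^ j) hX1' (by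
    calc (2 : ℝ) = 2 ^ 1 := by norm_num
      _ ≤ 2 ^ j := pow_le_pow_right₀ (by norm_num) hj1)
  rw [pow_one, Real.log_pow] at h2
  have hl2 : (1 : ℝ) / 2 ≤ Real.log 2 := by have := Real.log_two_gt_d9; linarith
  have h3 : C * X / (j * Real.log 2) ≤ 2 * C * X / j := by
    rw [div_le_div_iff₀ (by positivity) (by positivity)]
    have : 0 ≤ C * X * j := by positivity
    nlinarith
  have h4 : ((cnt (fun x => nev d m r ((x, 2 ^ j), t)) X : ℕ) : ℝ) ≤ 2 * C * X / j :=
    ((Nat.cast_le.2 h1).trans h2).trans h3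
  rw [le_div_iff₀ (by positivity)] at h4
  have h5 : ((cnt (fun x => nev d m r ((x, 2 ^ j), t)) X * j : ℕ) : ℝ) ≤ ((c₀ * X : ℕ) : ℝ) := by
    push_cast
    refine h4.trans ?_
    exact mul_le_mul_of_nonneg_right hc₀ (by positivity)
  exact_mod_cast h5

theorem lev3_mono {c₀ a b t : ℕ} (hab : a ≤ b) (h : lev3 d m r c₀ b t = true) : lev3 d m r c₀ a t = true := by
  unfold lev3 at *
  rw [decide_eq_true_eq, cnt_all] at *
  intro X h1 h2
  exact h X h1 (h2.trans (Nat.mul_le_mul hab hab))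

theorem column (hd : 2 ≤ d) (hr : ∀ i < d, r i ≡ i * m i [ZMOD d]) {c₀ : ℕ} {g : ℕ → ℕ}
    (hg : ∀ n, lev3 d m r c₀ n (g n) = true) (hgm : ∀ n t, lev3 d m r c₀ n t = true → g n ≤ t) (a : ℤ) :
    HasDens {n : ℕ | (∃ k, (TT d m r)^[k] (n : ℤ) = a) ∧ ¬ ∃ k ≤ g n + n, (TT d m r)^[k] (n : ℤ) = a} 0 := by
  classical
  have hmono : ∀ {a b}, a ≤ b → g a ≤ g b := fun hab => hgm _ _ (lev3_mono hab (hg _))
  -- the bound at level `j`
  have hlev : ∀ j : ℕ, 1 ≤ j → ∃ s : ℕ, ∀ N : ℕ, j ≤ N → ∃ c : ℕ, c * j ≤ c₀ * N ∧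
      {n : ℕ | 1 ≤ n ∧ n ≤ N ∧ n ∈ {n : ℕ | (∃ k, (TT d m r)^[k] (n : ℤ) = a) ∧
        ¬ ∃ k ≤ g n + n, (TT d m r)^[k] (n : ℤ) = a}}.ncard ≤ s + (Nat.sqrt N + 1) + c := by
    intro j hj
    set κ : ℤ → ℕ := fun z => if h : ∃ k, (TT d m r)^[k] z = a then Nat.find h else 0 with hκ
    set s := (Finset.Icc (-(2 ^ j : ℤ)) (2 ^ j)).sup κ with hs
    refine ⟨s, fun N hN => ?_⟩
    set n₀ := Nat.sqrt N + 1 with hn₀
    have hn₀2 : N ≤ n₀ * n₀ := (Nat.lt_succ_sqrt N).le
    have hN1 : 1 ≤ N := hj.trans hN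
    have h1 := hg n₀
    unfold lev3 at h1
    rw [decide_eq_true_eq, cnt_all] at h1
    have h2 := h1 N hN1 hn₀2
    unfold lev2 at h2
    rw [decide_eq_true_eq, cnt_all] at h2
    have h3 := h2 j hj hN
    unfold lev1 at h3
    rw [decide_eq_true_eq] at h3
    refine ⟨_, h3, ?_⟩
    simp only
    rw [cnt_eq]
    have hsub : {n : ℕ | 1 ≤ n ∧ n ≤ N ∧ n ∈ {n : ℕ | (∃ k, (TT d m r)^[k] (n : ℤ) = a) ∧
        ¬ ∃ k ≤ g n + n, (TT d m r)^[k] (n : ℤ) = a}} ⊆
        (((Finset.range s ∪ Finset.range n₀) ∪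
          (Finset.Icc 1 N).filter fun x => nev d m r ((x, 2 ^ j), g n₀) = true : Finset ℕ) : Set ℕ) := by
      rintro n ⟨g1, g2, ⟨k, hk⟩, g4⟩
      rw [Finset.mem_coe, Finset.mem_union, Finset.mem_union, Finset.mem_range, Finset.mem_range, Finset.mem_filter,
        Finset.mem_Icc, nev_iff hd hr]
      by_contra hcon
      push_neg at hcon
      obtain ⟨⟨q1, q2⟩, q3⟩ := hcon
      obtain ⟨k₀, hk₀, hz⟩ := q3 ⟨g1, g2⟩
      have hgn : g n₀ ≤ g n := hmono q2
      apply g4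
      rcases lt_or_ge k k₀ with hlt | hge
      · exact ⟨k, by omega, hk⟩
      · set z := (TT d m r)^[k₀] (n : ℤ) with hzdef
        have hex : ∃ k, (TT d m r)^[k] z = a := by
          refine ⟨k - k₀, ?_⟩
          rw [hzdef, ← Function.iterate_add_apply, Nat.sub_add_cancel hge]
          exact hk
        have hzm : z ∈ Finset.Icc (-(2 ^ j : ℤ)) (2 ^ j) := by
          rw [Finset.mem_Icc]
          have := abs_le.1 hz
          push_cast at this
          exact this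
        have hle : κ z ≤ s := Finset.le_sup (f := κ) hzm
        have hkz : κ z = Nat.find hex := by
          simp only [hκ]
          exact dif_pos hex
        refine ⟨Nat.find hex + k₀, ?_, ?_⟩
        · rw [← hkz]; omega
        · rw [Function.iterate_add_apply]
          exact Nat.find_spec hex
    have h4 := Set.ncard_le_ncard hsub (Finset.finite_toSet _)
    rw [Set.ncard_coe_finset] at h4
    refine h4.trans ((Finset.card_union_le _ _).trans ?_)
    have h5 := Finset.card_union_le (Finset.range s) (Finset.range n₀)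
    rw [Finset.card_range, Finset.card_range] at h5
    exact Nat.add_le_add_right h5 _
  unfold HasDens
  rw [Metric.tendsto_atTop]
  intro ε hε
  obtain ⟨j, hj⟩ := exists_nat_gt (4 * (c₀ : ℝ) / ε)
  set j' := j + 1 with hj'
  obtain ⟨s, hs⟩ := hlev j' (by omega)
  obtain ⟨M, hM⟩ := exists_nat_gt (4 / ε)
  have hM0 : (0 : ℝ) < M := lt_trans (by positivity) hM
  obtain ⟨N₀, hN₀⟩ := exists_nat_gt (4 * ((s : ℝ) + 1) / ε)
  refine ⟨max (max (M * M) N₀) (max j' 1), fun N hN => ?_⟩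
  have k1 : M * M ≤ N := (le_max_left _ _).trans ((le_max_left _ _).trans hN)
  have k2 : N₀ ≤ N := (le_max_right _ _).trans ((le_max_left _ _).trans hN)
  have k3 : j' ≤ N := (le_max_left _ _).trans ((le_max_right _ _).trans hN)
  have k4 : 1 ≤ N := (le_max_right _ _).trans ((le_max_right _ _).trans hN)
  obtain ⟨c, hc, hcount⟩ := hs N k3
  have hN0 : (0 : ℝ) < N := by exact_mod_cast k4
  rw [Real.dist_eq, sub_zero, abs_of_nonneg (by positivity), div_lt_iff₀ hN0]
  have e0 := (Nat.cast_le (α := ℝ)).2 hcount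
  push_cast at e0
  have e1 : (c : ℝ) ≤ ε / 4 * N := by
    have h1 : (c : ℝ) * (j' : ℝ) ≤ c₀ * N := by exact_mod_cast hc
    have h2 : 4 * (c₀ : ℝ) ≤ ε * j' := by
      rw [div_lt_iff₀ hε] at hj
      rw [hj']
      push_cast
      nlinarith
    have h3 : (0 : ℝ) < j' := by rw [hj']; positivity
    have h4 : (c : ℝ) * j' ≤ (ε / 4 * N) * j' := by nlinarith
    exact le_of_mul_le_mul_right h4 h3
  have e2 : (s : ℝ) + 1 ≤ ε / 4 * N := by
    rw [div_lt_iff₀ hε] at hN₀
    have : (N₀ : ℝ) ≤ N := by exact_mod_cast k2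
    nlinarith
  have e3 : (Nat.sqrt N : ℝ) ≤ ε / 4 * N := by
    have h1 : M ≤ Nat.sqrt N := Nat.le_sqrt.2 k1
    have h2 : Nat.sqrt N * Nat.sqrt N ≤ N := Nat.sqrt_le N
    have h3 : M * Nat.sqrt N ≤ N := (Nat.mul_le_mul_right _ h1).trans h2
    have h4 : (M : ℝ) * (Nat.sqrt N : ℝ) ≤ N := by exact_mod_cast h3
    have h5 : 4 ≤ ε * M := by
      rw [div_lt_iff₀ hε] at hM
      linarith
    have h6 : 4 * (Nat.sqrt N : ℝ) ≤ ε * N := by
      have : (0 : ℝ) ≤ Nat.sqrt N := Nat.cast_nonneg _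
      nlinarith
    linarith
  nlinarith

theorem comp_col (hd : 2 ≤ d) (hr : ∀ i < d, r i ≡ i * m i [ZMOD d]) {g : ℕ → ℕ} (hg : Computable g) :
    ComputablePred fun p : ℕ × ℕ => 0 < p.1 ∧ 0 < p.2 ∧ ∃ k ≤ g p.1, (TT d m r)^[k] (p.1 : ℤ) = (p.2 : ℤ) := by
  have h0 : Primrec fun x : (ℕ × ℕ) × ℕ => (step d m r)^[x.2 - 1] (x.1.1, 0) :=
    Primrec.nat_iterate (Primrec.nat_sub.comp Primrec.snd (Primrec.const 1))
      (Primrec.pair (Primrec.fst.comp Primrec.fst) (Primrec.const 0))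
      ((step_primrec d m r).comp Primrec.snd)
  have h1 : Computable₂ fun (p : ℕ × ℕ) (k : ℕ) =>
      decide (((step d m r)^[k - 1] (p.1, 0)).1 = ((step d m r)^[k - 1] (p.1, 0)).2 + p.2) :=
    ((Primrec.eq (α := ℕ)).decide.comp (Primrec.fst.comp h0)
      (Primrec.nat_add.comp (Primrec.snd.comp h0) (Primrec.snd.comp Primrec.fst))).to_comp
  have h2 := cnt_computable h1 (Computable.succ.comp (hg.comp Computable.fst))
  have h3 : Computable fun p : ℕ × ℕ => decide (0 < p.1) :=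
    (Primrec.nat_lt.comp (Primrec.const 0) Primrec.fst).decide.to_comp
  have h4 : Computable fun p : ℕ × ℕ => decide (0 < p.2) :=
    (Primrec.nat_lt.comp (Primrec.const 0) Primrec.snd).decide.to_comp
  have h5 := (Primrec.nat_lt.decide).to_comp.comp (Computable.const 0) h2
  have h6 := Primrec.and.to_comp.comp h3 (Primrec.and.to_comp.comp h4 h5)
  rw [ComputablePred.computable_iff]
  refine ⟨_, h6, ?_⟩
  funext p
  apply propext
  have e : ∀ k, (((step d m r)^[k] (p.1, 0)).1 = ((step d m r)^[k] (p.1, 0)).2 + p.2 ↔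
      (TT d m r)^[k] (p.1 : ℤ) = (p.2 : ℤ)) := by
    intro k
    have := iter_val hd hr k (p.1, 0)
    simp only [Nat.cast_zero, sub_zero] at this
    rw [← this]
    omega
  simp only [Bool.and_eq_true, decide_eq_true_eq]
  refine and_congr_right fun _ => and_congr_right fun _ => ?_
  rw [Nat.pos_iff_ne_zero, Ne, cnt_none]
  push_neg
  constructor
  · rintro ⟨k, hk, h⟩
    refine ⟨k + 1, by omega, by simpa using hk, ?_⟩
    simp only [Nat.add_sub_cancel, decide_eq_true_eq]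
    exact (e k).2 h
  · rintro ⟨k, hk1, hk2, h⟩
    simp only [decide_eq_true_eq] at h
    exact ⟨k - 1, by simp at hk2; omega, (e (k - 1)).1 h⟩

end Pool.Agent.H749.IterG
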