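import Pool.Agent.H749.Col.Comp

set_option autoImplicit false

/-! Natural density, and a criterion for density zero of a difference. -/

namespace Pool.Agent.H749.Col

open Filter Topology

/-- the natural density of a set of positive integers -/
def HasDens (S : Set ℕ) (δ : ℝ) : Prop :=
  Tendsto (fun N : ℕ => ({n : ℕ | 1 ≤ n ∧ n ≤ N ∧ n ∈ S}.ncard : ℝ) / N) atTop (𝓝 δ)

theorem hfin (S : Set ℕ) (N : ℕ) : {n : ℕ | 1 ≤ n ∧ n ≤ N ∧ n ∈ S}.Finite := by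
  apply (Set.finite_Icc 1 N).subset
  rintro n ⟨g1, g2, -⟩
  exact ⟨g1, g2⟩

theorem zero_dens {A B : Set ℕ} {δ : ℝ} (hA : HasDens A δ)
    (h : ∀ ε : ℝ, 0 < ε → ∃ P : Set ℕ, P ⊆ A ∧ (∀ᶠ n : ℕ in atTop, n ∈ P → n ∈ B) ∧
      ∃ δ' : ℝ, δ - ε ≤ δ' ∧ HasDens P δ') : HasDens (A \ B) 0 := by
  unfold HasDens
  rw [Metric.tendsto_atTop]
  intro ε hε
  obtain ⟨P, hPA, hPB, δ', hδ', hP⟩ := h (ε / 4) (by linarith)
  obtain ⟨n₀, hn₀⟩ := eventually_atTop.1 hPB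
  -- counts
  have hcount : ∀ N : ℕ, {n : ℕ | 1 ≤ n ∧ n ≤ N ∧ n ∈ A \ B}.ncard + {n : ℕ | 1 ≤ n ∧ n ≤ N ∧ n ∈ P}.ncard ≤
      {n : ℕ | 1 ≤ n ∧ n ≤ N ∧ n ∈ A}.ncard + n₀ := by
    intro N
    rw [← Set.ncard_union_add_ncard_inter _ _ (hfin _ N) (hfin _ N)]
    apply add_le_add
    · apply Set.ncard_le_ncard _ (hfin _ N)
      rintro n (⟨g1, g2, g3⟩ | ⟨g1, g2, g3⟩)
      · exact ⟨g1, g2, g3.1⟩
      · exact ⟨g1, g2, hPA g3⟩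
    · have hsub : {n : ℕ | 1 ≤ n ∧ n ≤ N ∧ n ∈ A \ B} ∩ {n : ℕ | 1 ≤ n ∧ n ≤ N ∧ n ∈ P} ⊆
          ((Finset.range n₀ : Finset ℕ) : Set ℕ) := by
        rintro n ⟨⟨_, _, g3⟩, _, _, g4⟩
        rw [Finset.mem_coe, Finset.mem_range]
        by_contra hcon
        exact g3.2 (hn₀ n (not_lt.1 hcon) g4)
      have := Set.ncard_le_ncard hsub (Finset.finite_toSet _)
      rwa [Set.ncard_coe_finset, Finset.card_range] at this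
  have h1 : ∀ᶠ N : ℕ in atTop, ({n : ℕ | 1 ≤ n ∧ n ≤ N ∧ n ∈ A}.ncard : ℝ) / N < δ + ε / 4 :=
    hA.eventually (gt_mem_nhds (by linarith))
  have h2 : ∀ᶠ N : ℕ in atTop, δ' - ε / 4 < ({n : ℕ | 1 ≤ n ∧ n ≤ N ∧ n ∈ P}.ncard : ℝ) / N :=
    hP.eventually (lt_mem_nhds (by linarith))
  have h3 : ∀ᶠ N : ℕ in atTop, (n₀ : ℝ) / N < ε / 4 := by
    have : Tendsto (fun N : ℕ => (n₀ : ℝ) / N) atTop (𝓝 0) :=
      tendsto_const_nhds.div_atTop tendsto_natCast_atTop_atTop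
    exact this.eventually (gt_mem_nhds (by linarith))
  obtain ⟨N₁, hN₁⟩ := eventually_atTop.1 (h1.and (h2.and (h3.and (eventually_ge_atTop 1))))
  refine ⟨N₁, fun N hN => ?_⟩
  obtain ⟨g1, g2, g3, g4⟩ := hN₁ N hN
  have hN0 : (0 : ℝ) < N := by
    have : 0 < N := by omega
    exact_mod_cast this
  rw [Real.dist_eq, sub_zero, abs_of_nonneg (by positivity)]
  have h5 : ({n : ℕ | 1 ≤ n ∧ n ≤ N ∧ n ∈ A \ B}.ncard : ℝ) + {n : ℕ | 1 ≤ n ∧ n ≤ N ∧ n ∈ P}.ncard ≤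
      {n : ℕ | 1 ≤ n ∧ n ≤ N ∧ n ∈ A}.ncard + n₀ := by exact_mod_cast hcount N
  have h6 : (({n : ℕ | 1 ≤ n ∧ n ≤ N ∧ n ∈ A \ B}.ncard : ℝ)) / N ≤
      ({n : ℕ | 1 ≤ n ∧ n ≤ N ∧ n ∈ A}.ncard : ℝ) / N + (n₀ : ℝ) / N -
        ({n : ℕ | 1 ≤ n ∧ n ≤ N ∧ n ∈ P}.ncard : ℝ) / N := by
    rw [← add_div, ← sub_div]
    apply div_le_div_of_nonneg_right _ hN0.le
    linarith
  linarith

end Pool.Agent.H749.Col
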